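import Pool.Agent.Lib.RNG.Types

open Cardinal Set Filter Topology

namespace Pool.Agent.Lib.RNGT

open Pool.Agent.Lib.RNG

variable {ι : Type*}

/-- finite Kakeya lemma -/
theorem kak_fin [DecidableEq ι] (y : ι → ℝ) (hpos : ∀ i, 0 < y i) (R : ℝ) (hR : 0 ≤ R) (B : Finset ι) :
    (∀ b ∈ B, y b ≤ R + ∑ j ∈ B with y j < y b, y j) →
    ∀ u : ℝ, 0 ≤ u → u ≤ R + ∑ j ∈ B, y j →
      ∃ W ⊆ B, 0 ≤ u - ∑ j ∈ W, y j ∧ u - ∑ j ∈ W, y j ≤ R := by
  refine Finset.induction_on_max_value y B ?_ ?_
  · intro _ u h0 h1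
    refine ⟨∅, Finset.Subset.refl _, ?_, ?_⟩
    · simpa using h0
    · simpa using h1
  · intro a s ha hmax ih hyp u h0 h1
    have hs : ∀ b ∈ s, y b ≤ R + ∑ j ∈ s with y j < y b, y j := by
      intro b hb
      have h2 := hyp b (Finset.mem_insert_of_mem hb)
      rw [Finset.filter_insert, if_neg (not_lt.2 (hmax b hb))] at h2
      exact h2
    have ha2 : y a ≤ R + ∑ j ∈ s, y j := by
      have h2 := hyp a (Finset.mem_insert_self a s)
      rw [Finset.filter_insert, if_neg (lt_irrefl _)] at h2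
      have h3 : ∑ j ∈ s with y j < y a, y j ≤ ∑ j ∈ s, y j :=
        Finset.sum_le_sum_of_subset_of_nonneg (Finset.filter_subset _ _)
          (fun i _ _ => (hpos i).le)
      linarith
    rw [Finset.sum_insert ha] at h1
    by_cases hu : u ≤ R + ∑ j ∈ s, y j
    · obtain ⟨W, hW, h2, h3⟩ := ih hs u h0 hu
      exact ⟨W, hW.trans (Finset.subset_insert a s), h2, h3⟩
    · push Not at hu
      obtain ⟨W, hW, h2, h3⟩ := ih hs (u - y a) (by linarith) (by linarith)
      have haW : a ∉ W := fun h => ha (hW h)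
      refine ⟨insert a W, Finset.insert_subset_insert a hW, ?_, ?_⟩
      · rw [Finset.sum_insert haW]; linarith
      · rw [Finset.sum_insert haW]; linarith

namespace KakAux

theorem ex_pos (y : ι → ℝ) (hpos : ∀ i, 0 < y i) (A : Finset ι) : ∃ c : ℝ, 0 < c ∧ ∀ i ∈ A, c ≤ y i := by
  rcases A.eq_empty_or_nonempty with h | h
  · exact ⟨1, one_pos, by simp [h]⟩
  · obtain ⟨a, _, hmin⟩ := Finset.exists_min_image A y h
    exact ⟨y a, hpos a, hmin⟩

theorem gs_fin [DecidableEq ι] (y : ι → ℝ) (W : Finset ι) :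
    gs y (fun i => decide (i ∈ W)) = ∑ i ∈ W, y i := by
  unfold gs
  rw [tsum_eq_sum (s := W)]
  · apply Finset.sum_congr rfl
    intro i hi
    simp [hi]
  · intro i hi
    simp [hi]

theorem cont_gs {y : ι → ℝ} (hy : Summable y) (hpos : ∀ i, 0 < y i) : Continuous (gs y) := by
  unfold gs
  apply continuous_tsum (u := y) _ hy
  · intro i δ
    split_ifs
    · rw [Real.norm_eq_abs, abs_of_pos (hpos i)]
    · rw [norm_zero]; exact (hpos i).le
  · intro i
    have h1 : Continuous (fun b : Bool => if b = true then y i else 0) := continuous_of_discreteTopology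
    exact h1.comp (continuous_apply i)

/-- approximation by finite sums is enough -/
theorem gs_of_approx [DecidableEq ι] {y : ι → ℝ} (hy : Summable y) (hpos : ∀ i, 0 < y i)
    (A : Finset ι) (v : ℝ)
    (h : ∀ ε : ℝ, 0 < ε → ∃ W : Finset ι, Disjoint W A ∧ 0 ≤ v - ∑ j ∈ W, y j ∧
      v - ∑ j ∈ W, y j ≤ ε) : ∃ d : ι → Bool, (∀ i ∈ A, d i = false) ∧ gs y d = v := by
  set K : Set (ι → Bool) := {d | ∀ i ∈ A, d i = false} with hK
  have hKc : IsClosed K := by
    have e : K = ⋂ i ∈ A, (fun d : ι → Bool => d i) ⁻¹' {false} := by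
      ext d
      simp [hK]
    rw [e]
    refine isClosed_iInter fun i => isClosed_iInter fun _ => ?_
    exact (isClosed_discrete _).preimage (continuous_apply i)
  have hKk : IsCompact K := hKc.isCompact
  have himg : IsClosed (gs y '' K) := (hKk.image (cont_gs hy hpos)).isClosed
  have hmem : v ∈ closure (gs y '' K) := by
    rw [Metric.mem_closure_iff]
    intro ε hε
    obtain ⟨W, hW, h1, h2⟩ := h (ε / 2) (by linarith)
    refine ⟨∑ j ∈ W, y j, ⟨fun i => decide (i ∈ W), ?_, gs_fin y W⟩, ?_⟩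
    · intro i hi
      have : i ∉ W := fun hiW => (Finset.disjoint_left.1 hW) hiW hi
      simp [this]
    · rw [Real.dist_eq, abs_lt]
      constructor <;> linarith
  rw [himg.closure_eq] at hmem
  obtain ⟨d, hd, he⟩ := hmem
  exact ⟨d, hd, he⟩

end KakAux

open KakAux

/-- positive terms, 2 c <= remaining sum for every finite A containing A0 with all terms >= c:
then the fibres are not bounded -/
theorem kak_main {y : ι → ℝ} (hy : Summable y) (hpos : ∀ i, 0 < y i) (A0 : Finset ι)
    (hK : ∀ A : Finset ι, A0 ⊆ A → ∀ c : ℝ, (∀ i ∈ A, c ≤ y i) →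
      2 * c ≤ (∑' i, y i) - ∑ i ∈ A, y i) (M : ℕ)
    (hF : ∀ t, (fib y t).Finite ∧ (fib y t).ncard ≤ M) : False := by
  classical
  set S := ∑' i, y i with hS
  have hrem : ∀ A : Finset ι, A0 ⊆ A → 0 < S - ∑ i ∈ A, y i := by
    intro A hA
    obtain ⟨c, hc, hcA⟩ := ex_pos y hpos A
    have := hK A hA c hcA
    linarith
  obtain ⟨c0, hc0, hc0A⟩ := ex_pos y hpos A0
  have hfin : ∀ c : ℝ, 0 < c → {j : ι | c ≤ y j}.Finite := by
    intro c hc
    have h1 : ∀ᶠ j in cofinite, y j < c := hy.tendsto_cofinite_zero.eventually_lt_const hc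
    have h2 : {j : ι | ¬ y j < c}.Finite := h1
    refine h2.subset ?_
    intro j hj
    exact not_lt.2 hj
  set A1 : Finset ι := (hfin c0 hc0).toFinset with hA1
  have memA1 : ∀ j, j ∈ A1 ↔ c0 ≤ y j := by
    intro j
    rw [hA1, Set.Finite.mem_toFinset, Set.mem_ofPred_eq]
  have hA01 : A0 ⊆ A1 := fun j hj => (memA1 j).2 (hc0A j hj)
  set R0 := S - ∑ i ∈ A1, y i with hR0
  have hR0pos : 0 < R0 := hrem A1 hA01
  have hSpos : 0 ≤ S := tsum_nonneg fun i => (hpos i).le
  -- remaining sums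
  have hRB : ∀ B : Finset ι, Disjoint A1 B → S - ∑ i ∈ A1 ∪ B, y i = R0 - ∑ i ∈ B, y i := by
    intro B hB
    rw [Finset.sum_union hB, hR0]
    ring
  -- (a)
  have ha : ∀ B : Finset ι, (∀ b ∈ B, b ∉ A1) →
      R0 ≤ (3 / 2 : ℝ) ^ B.card * (R0 - ∑ i ∈ B, y i) := by
    intro B
    refine Finset.induction_on_min_value y B ?_ ?_
    · intro _
      simp
    · intro a s has hmin ih hyp
      have ih' := ih fun b hb => hyp b (Finset.mem_insert_of_mem hb)
      have haA : a ∉ A1 := hyp a (Finset.mem_insert_self a s)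
      have hdis : Disjoint A1 (insert a s) := by
        rw [Finset.disjoint_right]
        exact hyp
      have h1 := hK (A1 ∪ insert a s) (hA01.trans Finset.subset_union_left) (y a) (by
        intro i hi
        rw [Finset.mem_union, Finset.mem_insert] at hi
        rcases hi with hi | hi | hi
        · have h2 := (memA1 i).1 hi
          have h3 : ¬ c0 ≤ y a := fun h => haA ((memA1 a).2 h)
          linarith
        · rw [hi]
        · exact hmin i hi)
      rw [hRB _ hdis, Finset.sum_insert has] at h1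
      rw [Finset.card_insert_of_notMem has, Finset.sum_insert has, pow_succ]
      have h4 : R0 - ∑ i ∈ s, y i ≤ (3 / 2 : ℝ) * (R0 - (y a + ∑ i ∈ s, y i)) := by linarith
      have h5 : (0 : ℝ) < (3 / 2 : ℝ) ^ s.card := by positivity
      calc R0 ≤ (3 / 2 : ℝ) ^ s.card * (R0 - ∑ i ∈ s, y i) := ih'
        _ ≤ (3 / 2 : ℝ) ^ s.card * ((3 / 2 : ℝ) * (R0 - (y a + ∑ i ∈ s, y i))) :=
            mul_le_mul_of_nonneg_left h4 h5.le
        _ = _ := by ring
  -- the complement of `A1` is infinite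
  have hinf : {j : ι | j ∉ A1}.Infinite := by
    intro hf
    have h1 := hrem (A1 ∪ hf.toFinset) (hA01.trans Finset.subset_union_left)
    have h2 : S = ∑ i ∈ A1 ∪ hf.toFinset, y i := by
      rw [hS]
      apply tsum_eq_sum
      intro j hj
      exfalso
      apply hj
      by_cases h : j ∈ A1
      · exact Finset.mem_union_left _ h
      · exact Finset.mem_union_right _ (hf.mem_toFinset.2 h)
    rw [← h2] at h1
    linarith
  -- (b)
  obtain ⟨N, hN⟩ : ∃ N : ℕ, ∀ n ≥ N, (M : ℝ) * (S / R0 + 1) < (4 / 3 : ℝ) ^ n := by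
    have h1 : Tendsto (fun n : ℕ => (4 / 3 : ℝ) ^ n) atTop atTop :=
      tendsto_pow_atTop_atTop_of_one_lt (by norm_num)
    exact Filter.eventually_atTop.1 (h1.eventually_gt_atTop _)
  obtain ⟨F, hFs, hFc⟩ := hinf.exists_subset_card_eq N
  obtain ⟨δ, hδ, hδF⟩ := ex_pos y hpos F
  set B : Finset ι := (hfin δ hδ).toFinset \ A1 with hB
  have memB : ∀ j, j ∈ B ↔ δ ≤ y j ∧ j ∉ A1 := by
    intro j
    rw [hB, Finset.mem_sdiff, Set.Finite.mem_toFinset, Set.mem_ofPred_eq]
  have hFB : F ⊆ B := fun j hj => (memB j).2 ⟨hδF j hj, hFs hj⟩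
  have hn : N ≤ B.card := by
    rw [← hFc]
    exact Finset.card_le_card hFB
  have hdisB : Disjoint A1 B := by
    rw [Finset.disjoint_right]
    exact fun j hj => ((memB j).1 hj).2
  set RB := R0 - ∑ i ∈ B, y i with hRBd
  have hRBpos : 0 < RB := by
    rw [hRBd, ← hRB B hdisB]
    exact hrem _ (hA01.trans Finset.subset_union_left)
  have haB := ha B fun b hb => ((memB b).1 hb).2
  rw [← hRBd] at haB
  -- (c)
  have hc : ∀ v : ℝ, 0 ≤ v → v ≤ RB → ∃ d : ι → Bool, (∀ i ∈ A1 ∪ B, d i = false) ∧ gs y d = v := by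
    intro v hv0 hv1
    apply gs_of_approx hy hpos
    intro ε hε
    -- a finite set with small remainder
    obtain ⟨F', hF'⟩ : ∃ F' : Finset ι, S - ∑ i ∈ F', y i ≤ ε := by
      have h1 := hy.hasSum
      rw [← hS] at h1
      have h2 : ∀ᶠ G : Finset ι in atTop, S - ε < ∑ i ∈ G, y i :=
        h1.eventually_const_lt (by linarith)
      obtain ⟨G, hG⟩ := h2.exists
      exact ⟨G, by linarith⟩
    set B' : Finset ι := F' \ (A1 ∪ B) with hB'
    have hdis' : Disjoint (A1 ∪ B) B' := Finset.disjoint_sdiff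
    set R' := S - ∑ i ∈ (A1 ∪ B) ∪ B', y i with hR'
    have hR'0 : 0 ≤ R' := by
      rw [hR', sub_nonneg, hS]
      exact hy.sum_le_tsum _ (fun i _ => (hpos i).le)
    have hR'ε : R' ≤ ε := by
      have h1 : ∑ i ∈ F', y i ≤ ∑ i ∈ (A1 ∪ B) ∪ B', y i := by
        apply Finset.sum_le_sum_of_subset_of_nonneg
        · intro j hj
          rw [hB', Finset.union_sdiff_self_eq_union]
          exact Finset.mem_union_right _ hj
        · exact fun i _ _ => (hpos i).le
      linarith
    have hRR : RB = R' + ∑ j ∈ B', y j := by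
      rw [hR', Finset.sum_union hdis', hRBd, ← hRB B hdisB]
      ring
    have hcond : ∀ b ∈ B', y b ≤ R' + ∑ j ∈ B' with y j < y b, y j := by
      intro b hb
      have hbn : b ∉ A1 ∪ B := (Finset.mem_sdiff.1 hb).2
      rw [Finset.mem_union, not_or] at hbn
      have hb1 : y b < c0 := by
        by_contra h
        exact hbn.1 ((memA1 b).2 (not_lt.1 h))
      have hb2 : y b < δ := by
        by_contra h
        exact hbn.2 ((memB b).2 ⟨not_lt.1 h, hbn.1⟩)
      have h1 := hK ((A1 ∪ B) ∪ B'.filter (fun j => ¬ y j < y b))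
        ((hA01.trans Finset.subset_union_left).trans Finset.subset_union_left) (y b) (by
          intro i hi
          rw [Finset.mem_union, Finset.mem_union, Finset.mem_filter] at hi
          rcases hi with (hi | hi) | hi
          · have := (memA1 i).1 hi
            linarith
          · have := ((memB i).1 hi).1
            linarith
          · exact not_lt.1 hi.2)
      have h2 : Disjoint (A1 ∪ B) (B'.filter (fun j => ¬ y j < y b)) :=
        hdis'.mono_right (Finset.filter_subset _ _)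
      rw [Finset.sum_union h2] at h1
      have h3 := Finset.sum_filter_add_sum_filter_not B' (fun j => y j < y b) y
      have h4 : R' = S - (∑ i ∈ A1 ∪ B, y i) - ∑ j ∈ B', y j := by
        rw [hR', Finset.sum_union hdis']
        ring
      have h5 := hpos b
      linarith
    obtain ⟨W, hW, h1, h2⟩ := kak_fin y hpos R' hR'0 B' hcond v hv0 (by rw [← hRR]; exact hv1)
    refine ⟨W, ?_, h1, h2.trans hR'ε⟩
    exact (hdis'.mono_right hW).symm
  -- (d)
  set n := B.card with hnd
  set kk : Finset ι → ℕ := fun W => ⌊(∑ i ∈ W, y i) / RB⌋₊ with hkk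
  have hmaps : ∀ W ∈ B.powerset, kk W ∈ Finset.range (⌊S / RB⌋₊ + 1) := by
    intro W _
    rw [Finset.mem_range, Nat.lt_succ_iff]
    apply Nat.floor_le_floor
    apply div_le_div_of_nonneg_right _ hRBpos.le
    rw [hS]
    exact hy.sum_le_tsum _ (fun i _ => (hpos i).le)
  have hcard : (Finset.range (⌊S / RB⌋₊ + 1)).card * M < B.powerset.card := by
    rw [Finset.card_range, Finset.card_powerset, ← hnd]
    have h1 : ((⌊S / RB⌋₊ : ℕ) : ℝ) ≤ S / RB := Nat.floor_le (by positivity)
    have h2 : S / RB ≤ (3 / 2 : ℝ) ^ n * (S / R0) := by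
      rw [div_le_iff₀ hRBpos]
      have h3 : S / R0 * R0 ≤ S / R0 * ((3 / 2 : ℝ) ^ n * RB) :=
        mul_le_mul_of_nonneg_left haB (by positivity)
      rw [div_mul_cancel₀ _ hR0pos.ne'] at h3
      linarith
    have h3 : (1 : ℝ) ≤ (3 / 2 : ℝ) ^ n := one_le_pow₀ (by norm_num)
    have h4 := hN n hn
    have h5 : (((⌊S / RB⌋₊ + 1) * M : ℕ) : ℝ) < ((2 ^ n : ℕ) : ℝ) := by
      push_cast
      calc ((⌊S / RB⌋₊ : ℕ) + 1 : ℝ) * M ≤ ((3 / 2 : ℝ) ^ n * (S / R0) + (3 / 2 : ℝ) ^ n) * M := by
            apply mul_le_mul_of_nonneg_right _ (Nat.cast_nonneg M)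
            linarith
        _ = (3 / 2 : ℝ) ^ n * (M * (S / R0 + 1)) := by ring
        _ < (3 / 2 : ℝ) ^ n * (4 / 3 : ℝ) ^ n := mul_lt_mul_of_pos_left h4 (by positivity)
        _ = 2 ^ n := by rw [← mul_pow]; norm_num
    exact_mod_cast h5
  obtain ⟨k, -, hk⟩ := Finset.exists_lt_card_fiber_of_mul_lt_card_of_maps_to hmaps hcard
  set P := B.powerset.filter (fun W => kk W = k) with hP
  set u : ℝ := (k + 1) * RB with hu
  have hbd : ∀ W ∈ P, 0 ≤ u - ∑ i ∈ W, y i ∧ u - ∑ i ∈ W, y i ≤ RB := by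
    intro W hW
    have h1 : kk W = k := (Finset.mem_filter.1 hW).2
    have h0 : 0 ≤ (∑ i ∈ W, y i) / RB :=
      div_nonneg (Finset.sum_nonneg fun i _ => (hpos i).le) hRBpos.le
    have h2 : (k : ℝ) ≤ (∑ i ∈ W, y i) / RB := by
      rw [← h1]
      exact Nat.floor_le h0
    have h3 : (∑ i ∈ W, y i) / RB < k + 1 := by
      rw [← h1]
      exact Nat.lt_floor_add_one _
    rw [le_div_iff₀ hRBpos] at h2
    rw [div_lt_iff₀ hRBpos] at h3
    rw [hu]
    constructor <;> nlinarith
  choose! dd hdd using fun W (hW : W ∈ P) => hc (u - ∑ i ∈ W, y i) (hbd W hW).1 (hbd W hW).2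
  have hsub : ∀ W ∈ P, (fun i => if i ∈ B then decide (i ∈ W) else dd W i) ∈ fib y u := by
    intro W hW
    have hWB : W ⊆ B := Finset.mem_powerset.1 (Finset.mem_filter.1 hW).1
    show gs y (fun i => if i ∈ B then decide (i ∈ W) else dd W i) = u
    have e1 : gs y (fun i => if i ∈ B then decide (i ∈ W) else dd W i) =
        gs y (fun i => decide (i ∈ W)) + gs y (dd W) := by
      unfold gs
      rw [← (summable_gs hy.abs _).tsum_add (summable_gs hy.abs _)]
      apply tsum_congr
      intro i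
      by_cases hi : i ∈ B
      · have h1 := (hdd W hW).1 i (Finset.mem_union_right _ hi)
        simp [hi, h1]
      · have h2 : i ∉ W := fun h => hi (hWB h)
        simp [hi, h2]
    rw [e1, gs_fin, (hdd W hW).2]
    ring
  have hinj : ∀ W ∈ P, ∀ W' ∈ P, (fun i => if i ∈ B then decide (i ∈ W) else dd W i) =
      (fun i => if i ∈ B then decide (i ∈ W') else dd W' i) → W = W' := by
    intro W hW W' hW' he
    have hWB : W ⊆ B := Finset.mem_powerset.1 (Finset.mem_filter.1 hW).1
    have hWB' : W' ⊆ B := Finset.mem_powerset.1 (Finset.mem_filter.1 hW').1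
    ext i
    by_cases hi : i ∈ B
    · have h1 := congrFun he i
      simp only [if_pos hi] at h1
      exact decide_eq_decide.1 h1
    · exact ⟨fun h => absurd (hWB h) hi, fun h => absurd (hWB' h) hi⟩
  have hle : P.card ≤ (fib y u).ncard := by
    rw [← Set.ncard_coe_finset P]
    exact Set.ncard_le_ncard_of_injOn
      (fun W i => if i ∈ B then decide (i ∈ W) else dd W i)
      (fun W hW => hsub W hW) (fun W hW W' hW' he => hinj W hW W' hW' he) (hF u).1
  have := (hF u).2
  omega

end Pool.Agent.Lib.RNGT
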