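import Pool.Agent.Lib.RNGT.Split

/-! Positive terms: the majority sequence belongs to its fibre; the tails are large. -/

open Cardinal Set Filter Topology

namespace Pool.Agent.Lib.RNGT

open Pool.Agent.Lib.RNG

variable {ι : Type*}

theorem gs_nonneg {y : ι → ℝ} (hpos : ∀ i, 0 < y i) (δ : ι → Bool) : 0 ≤ gs y δ := by
  apply tsum_nonneg
  intro i
  split_ifs
  · exact (hpos i).le
  · exact le_rfl

theorem gs_le {y : ι → ℝ} (hy : Summable y) (hpos : ∀ i, 0 < y i) (δ : ι → Bool) :
    gs y δ ≤ ∑' i, y i := by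
  have hy' : Summable (fun n => |y n|) := hy.abs
  apply Summable.tsum_le_tsum _ (summable_gs hy' δ) hy
  intro i
  split_ifs
  · exact le_rfl
  · exact (hpos i).le

theorem le_gs_of_true {y : ι → ℝ} (hy : Summable y) (hpos : ∀ i, 0 < y i) {δ : ι → Bool} {i : ι}
    (h : δ i = true) : y i ≤ gs y δ := by
  classical
  have h1 := gs_update' hy.abs δ i h
  have h2 := gs_nonneg hpos (Function.update δ i false)
  linarith

theorem gs_le_of_false {y : ι → ℝ} (hy : Summable y) (hpos : ∀ i, 0 < y i) {δ : ι → Bool} {i : ι}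
    (h : δ i = false) : gs y δ + y i ≤ ∑' i, y i := by
  classical
  have h1 := gs_update hy.abs δ i h
  have h2 := gs_le hy hpos (Function.update δ i true)
  linarith

theorem gs_beta {y : ι → ℝ} (hy : Summable y) (hpos : ∀ i, 0 < y i)
    {m M : ℕ} (hM : 3 * m < M)
    (hF : ∀ t, (fib y t).Finite ∧ ((fib y t).ncard ≤ m ∨ (fib y t).ncard = M)) {t : ℝ}
    {β : ι → Bool} (h : Maj y m M t β) : gs y β = t := by
  classical
  have hy0 : ∀ i, y i ≠ 0 := fun i => (hpos i).ne'
  have hb : ∀ J : Finset ι, 0 ≤ t + ∑ i ∈ J, sg (y i) (β i) ∧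
      t + ∑ i ∈ J, sg (y i) (β i) ≤ ∑' i, y i := by
    intro J
    have h1 := (maj_flipS hy.abs hy0 hM hF h J).1
    have h2 : (fib y (t + ∑ i ∈ J, sg (y i) (β i))).Nonempty := by
      rw [Set.nonempty_iff_ne_empty]
      intro h3
      rw [h3] at h1
      simp at h1
      omega
    obtain ⟨δ, hδ⟩ := h2
    have hδ : gs y δ = _ := hδ
    rw [← hδ]
    exact ⟨gs_nonneg hpos δ, gs_le hy hpos δ⟩
  have hsa : Summable (fun i => if β i then y i else 0) := summable_gs hy.abs β
  have hsb : Summable (fun i => if β i then 0 else y i) := by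
    have := summable_gs hy.abs (fun i => !β i)
    refine this.congr (fun i => ?_)
    cases β i <;> simp
  have htot : gs y β + ∑' i, (if β i then 0 else y i) = ∑' i, y i := by
    unfold gs
    rw [← hsa.tsum_add hsb]
    congr 1
    funext i
    cases β i <;> simp
  apply le_antisymm
  · -- the sum of the terms with digit one is at most `t`
    apply hsa.tsum_le_of_sum_le
    intro J
    have h1 := (hb (J.filter (fun i => β i = true))).1
    have h2 : ∑ i ∈ J.filter (fun i => β i = true), sg (y i) (β i)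
        = - ∑ i ∈ J, (if β i then y i else 0) := by
      rw [← Finset.sum_neg_distrib, Finset.sum_filter]
      apply Finset.sum_congr rfl
      intro i _
      rcases hbi : β i with _ | _ <;> simp [sg]
    rw [h2] at h1
    linarith
  · have h3 : ∑' i, (if β i then 0 else y i) ≤ ∑' i, y i - t := by
      apply hsb.tsum_le_of_sum_le
      intro J
      have h1 := (hb (J.filter (fun i => β i = false))).2
      have h2 : ∑ i ∈ J.filter (fun i => β i = false), sg (y i) (β i)
          = ∑ i ∈ J, (if β i then 0 else y i) := by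
        rw [Finset.sum_filter]
        apply Finset.sum_congr rfl
        intro i _
        rcases hbi : β i with _ | _ <;> simp [sg]
      rw [h2] at h1
      linarith
    linarith

theorem hit_fin {β : ι → Bool} {F : Set (ι → Bool)} (hF : F.Finite) :
    ∃ A0 : Finset ι, ∀ δ ∈ F, δ ≠ β → ∃ i ∈ A0, δ i ≠ β i := by
  classical
  induction F, hF using Set.Finite.induction_on with
  | empty => exact ⟨∅, by simp⟩
  | @insert a s _ _ ih =>
    obtain ⟨A, hA⟩ := ih
    by_cases ha : a = β
    · refine ⟨A, ?_⟩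
      rintro δ (rfl | hδ) hne
      · exact absurd ha hne
      · exact hA δ hδ hne
    · obtain ⟨i, hi⟩ : ∃ i, a i ≠ β i := by
        by_contra hcon
        push Not at hcon
        exact ha (funext hcon)
      refine ⟨insert i A, ?_⟩
      rintro δ (rfl | hδ) hne
      · exact ⟨i, Finset.mem_insert_self _ _, hi⟩
      · obtain ⟨j, hj, hj'⟩ := hA δ hδ hne
        exact ⟨j, Finset.mem_insert_of_mem hj, hj'⟩

theorem hit_lemma {y : ι → ℝ} (hy : Summable y) {t : ℝ} {β ν : ι → Bool} (hβ : gs y β = t)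
    {A0 A : Finset ι} (hA0 : ∀ δ ∈ fib y t, δ ≠ β → ∃ i ∈ A0, δ i ≠ β i) (hA : A0 ⊆ A)
    (hν : ∀ i, i ∉ A → ν i = β i) {δ : ι → Bool} (hδ : gs y δ = gs y ν) (hne : δ ≠ ν) :
    ∃ i ∈ A, δ i ≠ ν i := by
  classical
  by_contra hcon
  push Not at hcon
  set δ' : ι → Bool := fun i => if i ∈ A then β i else δ i with hδ'
  have h1 : gs y δ' + gs y ν = gs y β + gs y δ := by
    unfold gs
    rw [← (summable_gs hy.abs _).tsum_add (summable_gs hy.abs _),
      ← (summable_gs hy.abs _).tsum_add (summable_gs hy.abs _)]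
    congr 1
    funext i
    by_cases hi : i ∈ A
    · have e1 : δ' i = β i := by simp [hδ', hi]
      rw [e1, hcon i hi]
    · have e1 : δ' i = δ i := by simp [hδ', hi]
      rw [e1, hν i hi, add_comm]
  have h2 : gs y δ' = t := by linarith
  have h3 : δ' ≠ β := by
    intro h
    apply hne
    funext i
    by_cases hi : i ∈ A
    · exact hcon i hi
    · have e1 : δ' i = δ i := by simp [hδ', hi]
      rw [← e1, h, hν i hi]
  obtain ⟨i, hi, hi'⟩ := hA0 δ' h2 h3
  exact hi' (by simp [hδ', hA hi])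

theorem tail_large {y : ι → ℝ} (hy : Summable y) (hpos : ∀ i, 0 < y i)
    {m M : ℕ} (hm : 1 ≤ m) (hM : 3 * m < M)
    (hF : ∀ t, (fib y t).Finite ∧ ((fib y t).ncard ≤ m ∨ (fib y t).ncard = M)) {t : ℝ}
    {β : ι → Bool} (h : Maj y m M t β) :
    ∃ A0 : Finset ι, ∀ A : Finset ι, A0 ⊆ A → ∀ c : ℝ, (∀ i ∈ A, c ≤ y i) →
      2 * c ≤ (∑' i, y i) - ∑ i ∈ A, y i := by
  classical
  have hy0 : ∀ i, y i ≠ 0 := fun i => (hpos i).ne'
  have hβ := gs_beta hy hpos hM hF h
  obtain ⟨A0, hA0⟩ := hit_fin (β := β) (hF t).1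
  refine ⟨A0, fun A hA c hc => ?_⟩
  -- all digits zero on `A`
  set J0 := A.filter (fun i => β i = true) with hJ0
  set J1 := A.filter (fun i => β i = false) with hJ1
  have hM0 := maj_flipS hy.abs hy0 hM hF h J0
  have hM1 := maj_flipS hy.abs hy0 hM hF h J1
  have hb0 := gs_beta hy hpos hM hF hM0
  have hb1 := gs_beta hy hpos hM hF hM1
  have hν0 : ∀ i, i ∉ A → flipS β J0 i = β i := by
    intro i hi
    have : i ∉ J0 := fun h => hi (Finset.mem_filter.1 h).1
    simp [flipS, this]
  have hν1 : ∀ i, i ∉ A → flipS β J1 i = β i := by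
    intro i hi
    have : i ∉ J1 := fun h => hi (Finset.mem_filter.1 h).1
    simp [flipS, this]
  have hv0 : ∀ i ∈ A, flipS β J0 i = false := by
    intro i hi
    rcases hb : β i with _ | _
    · simp [flipS, hJ0, hb]
    · simp [flipS, hJ0, hb, hi]
  have hv1 : ∀ i ∈ A, flipS β J1 i = true := by
    intro i hi
    rcases hb : β i with _ | _
    · simp [flipS, hJ1, hb, hi]
    · simp [flipS, hJ1, hb]
  have key0 : c ≤ gs y (flipS β J0) := by
    obtain ⟨δ, hδ, hne⟩ : ∃ δ ∈ fib y (gs y (flipS β J0)), δ ≠ flipS β J0 := by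
      have h1 : 1 < (fib y (gs y (flipS β J0))).ncard := by
        rw [hb0, hM0.1]; omega
      exact Set.exists_ne_of_one_lt_ncard h1 _
    obtain ⟨i, hi, hi'⟩ := hit_lemma hy hβ hA0 hA hν0 hδ hne
    rw [hv0 i hi] at hi'
    have h2 : δ i = true := by simpa using hi'
    have h3 := le_gs_of_true hy hpos h2
    have hδ : gs y δ = _ := hδ
    rw [hδ] at h3
    exact (hc i hi).trans h3
  have key1 : c ≤ ∑' i, y i - gs y (flipS β J1) := by
    obtain ⟨δ, hδ, hne⟩ : ∃ δ ∈ fib y (gs y (flipS β J1)), δ ≠ flipS β J1 := by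
      have h1 : 1 < (fib y (gs y (flipS β J1))).ncard := by
        rw [hb1, hM1.1]; omega
      exact Set.exists_ne_of_one_lt_ncard h1 _
    obtain ⟨i, hi, hi'⟩ := hit_lemma hy hβ hA0 hA hν1 hδ hne
    rw [hv1 i hi] at hi'
    have h2 : δ i = false := by simpa using hi'
    have h3 := gs_le_of_false hy hpos h2
    have hδ : gs y δ = _ := hδ
    rw [hδ] at h3
    have := hc i hi
    linarith
  have hdiff : gs y (flipS β J1) - gs y (flipS β J0) = ∑ i ∈ A, y i := by
    rw [hb0, hb1]
    have e0 : ∑ i ∈ J0, sg (y i) (β i) = ∑ i ∈ A, (if β i then - y i else 0) := by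
      rw [hJ0, Finset.sum_filter]
      apply Finset.sum_congr rfl
      intro i _
      rcases hbi : β i with _ | _ <;> simp [sg]
    have e1 : ∑ i ∈ J1, sg (y i) (β i) = ∑ i ∈ A, (if β i then 0 else y i) := by
      rw [hJ1, Finset.sum_filter]
      apply Finset.sum_congr rfl
      intro i _
      rcases hbi : β i with _ | _ <;> simp [sg]
    rw [e0, e1]
    have : ∀ a b : ℝ, t + a - (t + b) = a - b := fun a b => by ring
    rw [this, ← Finset.sum_sub_distrib]
    apply Finset.sum_congr rfl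
    intro i _
    rcases hbi : β i with _ | _ <;> simp
  linarith

end Pool.Agent.Lib.RNGT
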