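import Pool.Agent.Lib.RNG.Three

/-! `{0, 1, 3, 9, ..., 3 ^ j}` is a range. -/

open Cardinal Set

namespace Pool.Agent.Lib.RNGT

open Pool.Agent.Lib.RNG Pool.Agent.Lib.P92898d

theorem reps_three (s : ℤ) : reps (Finset.range 3) (fun _ => 1) s
    = if s = 0 ∨ s = 3 then 1 else if s = 1 ∨ s = 2 then 3 else 0 := by
  simp only [reps_succ, reps_zero]
  by_cases h0 : s = 0
  · subst h0; norm_num
  by_cases h1 : s = 1
  · subst h1; norm_num
  by_cases h2 : s = 2
  · subst h2; norm_num
  by_cases h3 : s = 3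
  · subst h3; norm_num
  have e1 : ¬ (s - 1 = 0) := by omega
  have e2 : ¬ (s - 1 - 1 = 0) := by omega
  have e3 : ¬ (s - 1 - 1 - 1 = 0) := by omega
  simp [h0, h1, h2, h3, e1, e2, e3]

theorem isRange_pow_three (j : ℕ) :
    IsRange (insert 0 {κ : Cardinal.{0} | ∃ i ≤ j, κ = ((3 ^ i : ℕ) : Cardinal.{0})}) := by
  induction j with
  | zero =>
    obtain ⟨x, hx, hr⟩ := exists_injective
    refine ⟨x, hx, ?_⟩
    rw [hr]
    congr 1
    ext κ
    simp
  | succ j ih =>
    obtain ⟨x, hx, hr⟩ := ih
    have h := isRange_mul hx (fun _ => 1) 3 hr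
    have e : (insert 0 {κ : Cardinal.{0} | ∃ s : ℤ, ∃ d ∈ {κ : Cardinal.{0} | ∃ i ≤ j, κ = ((3 ^ i : ℕ) : Cardinal.{0})},
        κ = (reps (Finset.range 3) (fun _ => 1) s : Cardinal.{0}) * d})
        = insert 0 {κ : Cardinal.{0} | ∃ i ≤ j + 1, κ = ((3 ^ i : ℕ) : Cardinal.{0})} := by
      ext κ
      simp only [Set.mem_insert_iff, Set.mem_ofPred_eq]
      constructor
      · rintro (rfl | ⟨s, d, ⟨i, hi, rfl⟩, rfl⟩)
        · left; rfl
        · rw [reps_three]
          split_ifs
          · right
            exact ⟨i, by omega, by push_cast; ring⟩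
          · right
            exact ⟨i + 1, by omega, by push_cast; ring⟩
          · left
            simp
      · rintro (rfl | ⟨i, hi, rfl⟩)
        · left; rfl
        · right
          by_cases hij : i ≤ j
          · refine ⟨0, _, ⟨i, hij, rfl⟩, ?_⟩
            rw [reps_three]
            simp
          · refine ⟨1, _, ⟨j, le_rfl, rfl⟩, ?_⟩
            have : i = j + 1 := by omega
            subst this
            rw [reps_three]
            norm_num
            ring
    rwa [e] at h

end Pool.Agent.Lib.RNGT
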