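import Pool.Agent.Lib.RNG.Types

/-! Majority sequences of the largest fibres. -/

open Cardinal Set Filter Topology

namespace Pool.Agent.Lib.RNGT

open Pool.Agent.Lib.RNG

variable {ι : Type*}

/-- No coordinate splits a fibre into two parts with more than `m` elements each. -/
theorem no_split {y : ι → ℝ} (hy : Summable (fun n => |y n|)) {m M : ℕ}
    (hF : ∀ t, (fib y t).Finite ∧ ((fib y t).ncard ≤ m ∨ (fib y t).ncard = M)) {i : ι} (hi : y i ≠ 0)
    (t : ℝ) (h0 : m < (part y t i false).ncard) (h1 : m < (part y t i true).ncard) : False := by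
  have hm : ∀ t, m < (fib y t).ncard → (fib y t).ncard = M := by
    intro t ht
    rcases (hF t).2 with h | h
    · omega
    · exact h
  have key : ∀ k : ℕ, m < (part y (t + k * y i) i false).ncard ∧
      m < (part y (t + k * y i) i true).ncard := by
    intro k
    induction k with
    | zero => simpa using ⟨h0, h1⟩
    | succ k ih =>
      have e : t + ((k + 1 : ℕ) : ℝ) * y i = (t + k * y i) + y i := by push_cast; ring
      rw [e]
      set s := t + k * y i with hs
      have a1 := part_shift hy s i
      have a2 := part_card_add y s i (hF s).1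
      have a3 := part_card_add y (s + y i) i (hF (s + y i)).1
      have a4 := hm s (by omega)
      have a5 := hm (s + y i) (by omega)
      constructor <;> omega
  have hbd : ∀ k : ℕ, |t + k * y i| ≤ ∑' j, |y j| := by
    intro k
    have h2 := (key k).1
    have h3 : (part y (t + k * y i) i false).Nonempty := by
      rw [Set.nonempty_iff_ne_empty]
      intro h
      rw [h] at h2
      simp at h2
    obtain ⟨δ, hδ, -⟩ := h3
    rw [← hδ]
    exact abs_gs_le hy δ
  have hpos : 0 < |y i| := abs_pos.2 hi
  obtain ⟨k, hk⟩ := exists_nat_gt ((∑' j, |y j| + |t|) / |y i|)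
  rw [div_lt_iff₀ hpos] at hk
  have h4 := hbd k
  have h5 : |(k : ℝ) * y i| ≤ |t + k * y i| + |t| := by
    calc |(k : ℝ) * y i| = |(t + k * y i) - t| := by ring_nf
      _ ≤ |t + k * y i| + |t| := abs_sub _ _
  rw [abs_mul, Nat.abs_cast] at h5
  linarith

/-- `β` is the majority sequence of the fibre over `t`, which has `M` elements. -/
def Maj (y : ι → ℝ) (m M : ℕ) (t : ℝ) (β : ι → Bool) : Prop :=
  (fib y t).ncard = M ∧ ∀ i, (part y t i (!β i)).ncard ≤ m

theorem exists_maj {y : ι → ℝ} (hy : Summable (fun n => |y n|)) (hy0 : ∀ i, y i ≠ 0) {m M : ℕ}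
    (hF : ∀ t, (fib y t).Finite ∧ ((fib y t).ncard ≤ m ∨ (fib y t).ncard = M)) {t : ℝ}
    (ht : (fib y t).ncard = M) : ∃ β, Maj y m M t β := by
  have hmaj : ∀ i, ∃ b : Bool, (part y t i (!b)).ncard ≤ m := by
    intro i
    by_contra hcon
    push Not at hcon
    have h1 := hcon true
    have h2 := hcon false
    exact no_split hy hF (hy0 i) t (by simpa using h1) (by simpa using h2)
  choose β hβ using hmaj
  exact ⟨β, ht, hβ⟩

/-- the change of the sum when the digit `b` of a term `a` is flipped -/
noncomputable def sg (a : ℝ) (b : Bool) : ℝ := if b then -a else a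

theorem gs_flip [DecidableEq ι] {y : ι → ℝ} (hy : Summable (fun n => |y n|)) (δ : ι → Bool) (i : ι) :
    gs y (Function.update δ i (!δ i)) = gs y δ + sg (y i) (δ i) := by
  unfold sg
  rcases h : δ i with _ | _
  · simpa using gs_update hy δ i h
  · have := gs_update' hy δ i h
    simp only [Bool.not_true, if_true]
    rw [this]
    ring

theorem part_flip {y : ι → ℝ} (hy : Summable (fun n => |y n|)) (t : ℝ) (i : ι) (b : Bool) :
    (part y (t + sg (y i) b) i (!b)).ncard = (part y t i b).ncard := by
  unfold sg
  rcases b with _ | _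
  · simpa using part_shift hy t i
  · have := part_shift hy (t - y i) i
    rw [sub_add_cancel] at this
    simp only [Bool.not_true, if_true]
    rw [this, sub_eq_add_neg]

theorem maj_flip [DecidableEq ι] {y : ι → ℝ} (hy : Summable (fun n => |y n|)) (hy0 : ∀ i, y i ≠ 0)
    {m M : ℕ} (hM : 3 * m < M)
    (hF : ∀ t, (fib y t).Finite ∧ ((fib y t).ncard ≤ m ∨ (fib y t).ncard = M)) {t : ℝ}
    {β : ι → Bool} (h : Maj y m M t β) (i : ι) :
    Maj y m M (t + sg (y i) (β i)) (Function.update β i (!β i)) := by
  obtain ⟨h1, h2⟩ := h
  set t' := t + sg (y i) (β i) with ht'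
  have a1 : (part y t i (β i)).ncard + (part y t i (!β i)).ncard = M := by
    have := part_card_add y t i (hF t).1
    rcases hb : β i with _ | _
    · simp only [Bool.not_false]; omega
    · simp only [Bool.not_true]; omega
  have a2 : (part y t' i (!β i)).ncard = (part y t i (β i)).ncard := part_flip hy t i (β i)
  have a3 := h2 i
  have a4 : (part y t' i (β i)).ncard + (part y t' i (!β i)).ncard = (fib y t').ncard := by
    have := part_card_add y t' i (hF t').1
    rcases hb : β i with _ | _
    · simp only [Bool.not_false]; omega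
    · simp only [Bool.not_true]; omega
  have a5 : (fib y t').ncard = M := by
    rcases (hF t').2 with h | h
    · omega
    · exact h
  refine ⟨a5, fun k => ?_⟩
  by_cases hk : k = i
  · subst hk
    rw [Function.update_self, Bool.not_not]
    by_contra hc
    push Not at hc
    rcases hb : β k with _ | _
    · rw [hb] at hc a2 a3 a1
      simp only [Bool.not_false] at a2 a3 a1
      exact no_split hy hF (hy0 k) t' hc (by omega)
    · rw [hb] at hc a2 a3 a1
      simp only [Bool.not_true] at a2 a3 a1
      exact no_split hy hF (hy0 k) t' (by omega) hc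
  · rw [Function.update_of_ne hk]
    by_contra hc
    push Not at hc
    have b1 : m < (part y t' k (β k)).ncard := by
      set Q : Set (ι → Bool) := {δ | gs y δ = t ∧ δ i = β i ∧ δ k = β k} with hQ
      have c1 : fib y t ⊆ Q ∪ (part y t i (!β i) ∪ part y t k (!β k)) := by
        intro δ hδ
        by_cases d1 : δ i = β i
        · by_cases d2 : δ k = β k
          · exact Or.inl ⟨hδ, d1, d2⟩
          · exact Or.inr (Or.inr ⟨hδ, by cases hb : β k <;> cases hd : δ k <;> simp_all⟩)
        · exact Or.inr (Or.inl ⟨hδ, by cases hb : β i <;> cases hd : δ i <;> simp_all⟩)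
      have hfin := (hF t).1
      have c2 : (Q ∪ (part y t i (!β i) ∪ part y t k (!β k))).Finite := by
        refine (hfin.subset ?_).union ((hfin.subset ?_).union (hfin.subset ?_))
        · intro δ hδ; exact hδ.1
        · intro δ hδ; exact hδ.1
        · intro δ hδ; exact hδ.1
      have c3 := Set.ncard_le_ncard c1 c2
      have c4 := Set.ncard_union_le Q (part y t i (!β i) ∪ part y t k (!β k))
      have c5 := Set.ncard_union_le (part y t i (!β i)) (part y t k (!β k))
      have c6 := h2 k
      have c7 : Q.ncard ≤ (part y t' k (β k)).ncard := by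
        refine Set.ncard_le_ncard_of_injOn (fun δ => Function.update δ i (!δ i)) ?_ ?_
          ((hF t').1.subset (fun δ h => h.1))
        · rintro δ ⟨e1, e2, e3⟩
          refine ⟨?_, ?_⟩
          · show gs y (Function.update δ i (!δ i)) = t'
            rw [gs_flip hy δ i, e1, e2]
          · show Function.update δ i (!δ i) k = β k
            rw [Function.update_of_ne hk, e3]
        · rintro δ ⟨-, e2, -⟩ δ' ⟨-, e2', -⟩ hEq
          have hEq : Function.update δ i (!δ i) = Function.update δ' i (!δ' i) := hEq
          funext j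
          by_cases hj : j = i
          · subst hj; rw [e2, e2']
          · have := congrFun hEq j
            rwa [Function.update_of_ne hj, Function.update_of_ne hj] at this
      omega
    rcases hb : β k with _ | _
    · rw [hb] at hc b1
      exact no_split hy hF (hy0 k) t' b1 (by simpa using hc)
    · rw [hb] at hc b1
      exact no_split hy hF (hy0 k) t' (by simpa using hc) b1

/-- flip the digits in `J` -/
def flipS [DecidableEq ι] (β : ι → Bool) (J : Finset ι) : ι → Bool := fun i => if i ∈ J then !β i else β i

theorem maj_flipS [DecidableEq ι] {y : ι → ℝ} (hy : Summable (fun n => |y n|)) (hy0 : ∀ i, y i ≠ 0)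
    {m M : ℕ} (hM : 3 * m < M)
    (hF : ∀ t, (fib y t).Finite ∧ ((fib y t).ncard ≤ m ∨ (fib y t).ncard = M)) {t : ℝ}
    {β : ι → Bool} (h : Maj y m M t β) (J : Finset ι) :
    Maj y m M (t + ∑ i ∈ J, sg (y i) (β i)) (flipS β J) := by
  induction J using Finset.induction_on with
  | empty =>
    have : flipS β ∅ = β := by funext i; simp [flipS]
    simpa [this] using h
  | insert a s ha ih =>
    have h1 := maj_flip hy hy0 hM hF ih a
    have h2 : flipS β s a = β a := by simp [flipS, ha]
    rw [h2] at h1
    have h3 : Function.update (flipS β s) a (!β a) = flipS β (insert a s) := by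
      funext j
      by_cases hj : j = a
      · subst hj; simp [flipS]
      · rw [Function.update_of_ne hj]
        simp [flipS, hj]
    rw [h3] at h1
    rw [Finset.sum_insert ha]
    have h4 : t + (sg (y a) (β a) + ∑ i ∈ s, sg (y i) (β i))
        = t + ∑ i ∈ s, sg (y i) (β i) + sg (y a) (β a) := by ring
    rw [h4]
    exact h1

end Pool.Agent.Lib.RNGT
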