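import Pool.Agent.Lib.RNGT.Major
import Pool.Agent.Lib.RNGT.Kak
import Pool.Agent.Lib.RNG.Three

/-! The largest member of a finite range of natural numbers is at most three times the second
largest one. -/

open Cardinal Set Filter Topology

namespace Pool.Agent.Lib.RNGT

open Pool.Agent.Lib.RNG Pool.Agent.Lib.P92898d

variable {ι : Type*}

theorem no_top_pos {y : ι → ℝ} (hy : Summable y) (hpos : ∀ i, 0 < y i)
    {m M : ℕ} (hm : 1 ≤ m) (hM : 3 * m < M)
    (hF : ∀ t, (fib y t).Finite ∧ ((fib y t).ncard ≤ m ∨ (fib y t).ncard = M)) (t : ℝ) :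
    (fib y t).ncard ≠ M := by
  intro ht
  obtain ⟨β, hβ⟩ := exists_maj hy.abs (fun i => (hpos i).ne') hF ht
  obtain ⟨A0, hA0⟩ := tail_large hy hpos hm hM hF hβ
  refine kak_main hy hpos A0 hA0 M (fun t => ⟨(hF t).1, ?_⟩)
  rcases (hF t).2 with h | h <;> omega

/-- reflecting the terms with negative sign -/
theorem fib_abs {y : ι → ℝ} (hy : Summable (fun n => |y n|)) :
    ∃ c : ℝ, ∀ t, ∃ φ : (ι → Bool) → (ι → Bool), Function.Injective φ ∧
      fib (fun i => |y i|) t = φ '' fib y (t + c) := by
  classical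
  set φ : (ι → Bool) → (ι → Bool) := fun δ i => if y i < 0 then !δ i else δ i with hφ
  have hinv : ∀ δ, φ (φ δ) = δ := by
    intro δ
    funext i
    by_cases h : y i < 0 <;> simp [hφ, h]
  have hsc : Summable (fun i => if y i < 0 then y i else 0) := by
    apply Summable.of_norm_bounded hy
    intro n
    split_ifs <;> simp
  refine ⟨∑' i, (if y i < 0 then y i else 0), fun t => ⟨φ, ?_, ?_⟩⟩
  · intro a b h
    rw [← hinv a, ← hinv b, h]
  · have hgs : ∀ δ, gs (fun i => |y i|) (φ δ) = gs y δ - ∑' i, (if y i < 0 then y i else 0) := by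
      intro δ
      unfold gs
      rw [← (summable_gs hy _).tsum_sub hsc]
      congr 1
      funext i
      by_cases h : y i < 0
      · rcases hd : δ i with _ | _
        · simp [hφ, h, hd, abs_of_neg h]
        · simp [hφ, h, hd]
      · have h' : 0 ≤ y i := not_lt.1 h
        rcases hd : δ i with _ | _
        · simp [hφ, h, hd]
        · simp [hφ, h, hd, abs_of_nonneg h']
    ext ε
    constructor
    · intro hε
      have hε : gs (fun i => |y i|) ε = t := hε
      refine ⟨φ ε, ?_, hinv ε⟩
      show gs y (φ ε) = _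
      have h1 := hgs (φ ε)
      rw [hinv, hε] at h1
      linarith
    · rintro ⟨δ, hδ, rfl⟩
      have hδ : gs y δ = _ := hδ
      show gs (fun i => |y i|) (φ δ) = t
      rw [hgs, hδ]
      ring

theorem no_top {y : ι → ℝ} (hy : Summable (fun n => |y n|)) (hy0 : ∀ i, y i ≠ 0)
    {m M : ℕ} (hm : 1 ≤ m) (hM : 3 * m < M)
    (hF : ∀ t, (fib y t).Finite ∧ ((fib y t).ncard ≤ m ∨ (fib y t).ncard = M)) (t : ℝ) :
    (fib y t).ncard ≠ M := by
  obtain ⟨c, hc⟩ := fib_abs hy
  have h1 : ∀ s, (fib (fun i => |y i|) s).Finite ∧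
      (fib (fun i => |y i|) s).ncard = (fib y (s + c)).ncard := by
    intro s
    obtain ⟨φ, hφ, he⟩ := hc s
    rw [he]
    exact ⟨((hF _).1).image φ, Set.ncard_image_of_injective _ hφ⟩
  have h2 := no_top_pos (y := fun i => |y i|) hy (fun i => abs_pos.2 (hy0 i)) hm hM
    (fun s => ⟨(h1 s).1, by rw [(h1 s).2]; exact (hF _).2⟩) (t - c)
  rw [(h1 _).2, sub_add_cancel] at h2
  exact h2

theorem top_ratio {C : Set Cardinal.{0}} (hC : IsRange C) {m M : ℕ} (hm : 0 < m)
    (hmC : (m : Cardinal.{0}) ∈ C) (hMC : (M : Cardinal.{0}) ∈ C)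
    (hall : ∀ κ ∈ C, κ ≤ (m : Cardinal.{0}) ∨ κ = M) : M ≤ 3 * m := by
  obtain ⟨x, hx, hr⟩ := hC
  have hval : ∀ t, cardF x t ≤ m ∨ cardF x t = M := by
    intro t
    apply hall
    rw [← hr]
    exact ⟨t, rfl⟩
  obtain ⟨ta, hta⟩ : ∃ t, cardF x t = m := by
    have : (m : Cardinal.{0}) ∈ Set.range (cardF x) := by rw [hr]; exact hmC
    exact this
  obtain ⟨tb, htb⟩ : ∃ t, cardF x t = M := by
    have : (M : Cardinal.{0}) ∈ Set.range (cardF x) := by rw [hr]; exact hMC
    exact this
  -- finitely many zeros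
  set R : ℝ → Cardinal.{0} := fun t => #{δ : {n // ¬ x n = 0} → Bool | rsum x δ = t} with hR
  have hmul : ∀ t, cardF x t = #({n // x n = 0} → Bool) * R t := fun t => cardF_eq_mul x t
  have hRa : R ta ≠ 0 := by
    intro h0
    rw [hmul, h0, mul_zero] at hta
    exact hm.ne' (by exact_mod_cast hta.symm)
  have hZ : #({n // x n = 0} → Bool) < ℵ₀ := by
    calc #({n // x n = 0} → Bool) ≤ #({n // x n = 0} → Bool) * R ta :=
          Cardinal.le_mul_right hRa
      _ = m := by rw [← hmul, hta]
      _ < ℵ₀ := Cardinal.natCast_lt_aleph0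
  have hfin : Finite {n // x n = 0} := by
    by_contra hcon
    have hinf : Infinite {n // x n = 0} := not_finite_iff_infinite.1 hcon
    have h2 : #({n // x n = 0} → Bool) = 𝔠 := by
      rw [← Cardinal.power_def]
      simp
    rw [h2] at hZ
    exact absurd hZ (not_lt.2 Cardinal.aleph0_le_continuum)
  have := Fintype.ofFinite {n // x n = 0}
  have h2 : #({n // x n = 0} → Bool) = ((2 ^ Nat.card {n // x n = 0} : ℕ) : Cardinal.{0}) := by
    simp [Nat.card_eq_fintype_card]
  set P : ℕ := 2 ^ Nat.card {n // x n = 0} with hP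
  have hPpos : 0 < P := by positivity
  rw [h2] at hmul
  -- the values of R are finite
  have hRfin : ∀ t, R t < ℵ₀ := by
    intro t
    have hP1 : (1 : Cardinal.{0}) ≤ (P : Cardinal.{0}) := by exact_mod_cast hPpos
    calc R t = 1 * R t := (one_mul _).symm
      _ ≤ P * R t := by gcongr
      _ = cardF x t := (hmul t).symm
      _ < ℵ₀ := by
        rcases hval t with h | h
        · exact h.trans_lt Cardinal.natCast_lt_aleph0
        · rw [h]; exact Cardinal.natCast_lt_aleph0
  choose r hr' using fun t => Cardinal.lt_aleph0.1 (hRfin t)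
  have hN : ∀ t, P * r t ≤ m ∨ P * r t = M := by
    intro t
    have h3 := hval t
    rw [hmul, hr'] at h3
    rcases h3 with h | h
    · left; exact_mod_cast h
    · right; exact_mod_cast h
  have hNa : P * r ta = m := by
    rw [hmul, hr'] at hta; exact_mod_cast hta
  have hNb : P * r tb = M := by
    rw [hmul, hr'] at htb; exact_mod_cast htb
  have hra : 0 < r ta := by
    rcases Nat.eq_zero_or_pos (r ta) with h | h
    · rw [h] at hNa; omega
    · exact h
  -- fibres
  set y : {n // ¬ x n = 0} → ℝ := fun n => x n with hy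
  have hys : Summable (fun n => |y n|) := hx.subtype _
  have hy0 : ∀ i, y i ≠ 0 := fun i => i.2
  have hfibR : ∀ t, #(fib y t) = r t := by
    intro t
    rw [← hr' t]
    rfl
  have hfibfin : ∀ t, (fib y t).Finite := by
    intro t
    rw [← Cardinal.lt_aleph0_iff_set_finite, hfibR]
    exact Cardinal.natCast_lt_aleph0
  have hfibc : ∀ t, (fib y t).ncard = r t := by
    intro t
    have := hfibR t
    rw [← Set.cast_ncard (hfibfin t)] at this
    exact_mod_cast this
  by_contra hcon
  push Not at hcon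
  have h5 : 3 * r ta < r tb := by
    have : P * (3 * r ta) < P * r tb := by
      calc P * (3 * r ta) = 3 * (P * r ta) := by ring
        _ = 3 * m := by rw [hNa]
        _ < M := hcon
        _ = P * r tb := hNb.symm
    exact lt_of_mul_lt_mul_left this (Nat.zero_le _)
  refine no_top hys hy0 (m := r ta) (M := r tb) hra h5 (fun t => ⟨hfibfin t, ?_⟩) tb (hfibc tb)
  rw [hfibc]
  rcases hN t with h | h
  · left
    rw [← hNa] at h
    exact le_of_mul_le_mul_left h hPpos
  · right
    rw [← hNb] at h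
    exact Nat.eq_of_mul_eq_mul_left hPpos h

end Pool.Agent.Lib.RNGT
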